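import Pool.Agent.Lib.BipAcyc.Final

/-!
# The acyclic chromatic number of bipartite graphs of maximum degree `D`

For bipartite graphs the answer to the question is the first alternative:
the largest acyclic chromatic number of a finite bipartite graph of maximum degree at most `D`
is of order `D^(4/3) / (log D)^(1/3)`.

The upper bound is the new part. The lower bound (random bipartite graphs) is the argument of
Alon, McDiarmid and Reed.
-/

set_option autoImplicit false

namespace Pool.Agent.Results.MP_12b0e2_co.BipartiteOrder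

open Filter

/-- An acyclic colouring: a proper vertex colouring in which the union of any two colour classes
induces a forest. -/
def IsAcyclicColouring {V : Type*} (G : SimpleGraph V) {α : Type*} (C : V → α) : Prop :=
  (∀ u v : V, G.Adj u v → C u ≠ C v) ∧
    ∀ a b : α, (G.induce {v : V | C v = a ∨ C v = b}).IsAcyclic

/-- The acyclic chromatic number: the least number of colours of an acyclic colouring. -/
noncomputable def acyclicChromatic {V : Type*} (G : SimpleGraph V) : ℕ :=
  sInf {k : ℕ | ∃ C : V → Fin k, IsAcyclicColouring G C}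

theorem upper : ∃ C : ℝ, 0 < C ∧ ∀ᶠ D : ℕ in atTop,
    ∀ (V : Type) [Finite V] (G : SimpleGraph V), G.IsBipartite →
      (∀ v, (G.neighborSet v).ncard ≤ D) →
      (acyclicChromatic G : ℝ) ≤ C * ((D : ℝ) ^ (4 / 3 : ℝ) / Real.log D ^ (1 / 3 : ℝ)) :=
  Pool.Agent.Lib.BipAcyc.upper_bound

theorem lower : ∃ c : ℝ, 0 < c ∧ ∀ᶠ D : ℕ in atTop,
    ∃ (n : ℕ) (G : SimpleGraph (Fin n)), G.IsBipartite ∧
      (∀ v : Fin n, (G.neighborSet v).ncard ≤ D) ∧
      c * ((D : ℝ) ^ (4 / 3 : ℝ) / Real.log D ^ (1 / 3 : ℝ)) ≤ (acyclicChromatic G : ℝ) :=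
  Pool.Agent.Lib.BipAcyc.exists_bipartite_graph_large

/-- There are constants `0 < c`, `0 < C` such that for all sufficiently large `D`: every finite
bipartite graph of maximum degree at most `D` has acyclic chromatic number at most
`C D^(4/3) / (log D)^(1/3)`, and some finite bipartite graph of maximum degree at most `D` has
acyclic chromatic number at least `c D^(4/3) / (log D)^(1/3)`. -/
theorem result : ∃ c C : ℝ, 0 < c ∧ 0 < C ∧ ∀ᶠ D : ℕ in atTop,
    (∀ (V : Type) [Finite V] (G : SimpleGraph V), G.IsBipartite →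
      (∀ v, (G.neighborSet v).ncard ≤ D) →
      (acyclicChromatic G : ℝ) ≤ C * ((D : ℝ) ^ (4 / 3 : ℝ) / Real.log D ^ (1 / 3 : ℝ))) ∧
    ∃ (n : ℕ) (G : SimpleGraph (Fin n)), G.IsBipartite ∧
      (∀ v : Fin n, (G.neighborSet v).ncard ≤ D) ∧
      c * ((D : ℝ) ^ (4 / 3 : ℝ) / Real.log D ^ (1 / 3 : ℝ)) ≤ (acyclicChromatic G : ℝ) := by
  obtain ⟨C, hC, h1⟩ := upper
  obtain ⟨c, hc, h2⟩ := lower
  refine ⟨c, C, hc, hC, ?_⟩
  filter_upwards [h1, h2] with D k1 k2
  exact ⟨k1, k2⟩

end Pool.Agent.Results.MP_12b0e2_co.BipartiteOrder
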